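import Pool.Agent.MP_12f186_an.Mg.OwnProof

set_option autoImplicit false
open MeasureTheory Pool.Agent.MP_12f186_an.Own

/-- For every Borel equivariant choice of directed Hamiltonian paths on the free part of the full
shift there are two ergodic invariant measures that are conjugate for the lattice action but not
for the map that moves one step along the path. -/
theorem Pool.Agent.Results.MP_12f186_an.NoReduction.result
    (Φ : X2 → XH) (hΦ : Measurable Φ)
    (heq : ∀ (g : ℤ × ℤ) (x : X2) (e : Edge), (Φ (sigma g x)).1 e = (Φ x).1 (translate g e))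
    (s : X2 → ℤ × ℤ) (hs : ∀ x : X2, ∃ e : Edge, (Φ x).1 e = true ∧ e.1 = (0, s x)) :
    ∃ μ ν : Measure X2, IsErgodicInvariant μ ∧ IsErgodicInvariant ν ∧
      Conjugate sigma μ ν ∧ ¬ Conjugate (fun (_ : Unit) (x : X2) => sigma (s x) x) μ ν :=
  main Φ hΦ heq s hs
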